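import Pool.Agent.W2helper3.BQ.Stm

set_option autoImplicit false

/-! # Piece BR of project BQ -/

namespace Pool.Agent.W2helper93.BQ

open Pool.Agent.W2helper3.BQ

/-- tangent line -/
theorem tangent_le {q : ℝ} (hq : 1 < q) {s t : ℝ} (hs : 0 ≤ s) (ht : 0 ≤ t) :
    q * t ^ (q - 1) * (s - t) ≤ s ^ q - t ^ q := by
  rcases ht.eq_or_lt with h0 | h0
  · rw [← h0, Real.zero_rpow (by linarith), Real.zero_rpow (by linarith)]
    have := Real.rpow_nonneg hs q
    linarith
  · have h1 := one_add_mul_self_le_rpow_one_add (s := s / t - 1) (by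
      have : 0 ≤ s / t := by positivity
      linarith) hq.le
    have h2 : s ^ q = (s / t) ^ q * t ^ q := by
      rw [← Real.mul_rpow (by positivity) ht, div_mul_cancel₀ _ h0.ne']
    have h3 : t ^ q = t ^ (q - 1) * t := by
      rw [← Real.rpow_add_one h0.ne']
      congr 1
      ring
    have h4 : 1 + (s / t - 1) = s / t := by ring
    rw [h4] at h1
    have h5 : 0 < t ^ q := Real.rpow_pos_of_pos h0 _
    have h6 := mul_le_mul_of_nonneg_right h1 h5.le
    rw [← h2] at h6
    have h7 : (1 + q * (s / t - 1)) * t ^ q = t ^ q + q * t ^ (q - 1) * (s - t) := by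
      have h8 : (s / t - 1) * t = s - t := by
        field_simp
      calc (1 + q * (s / t - 1)) * t ^ q = t ^ q + q * t ^ (q - 1) * ((s / t - 1) * t) := by
            rw [h3]; ring
        _ = _ := by rw [h8]
    linarith

/-- differences of powers -/
theorem diff_rpow {r : ℝ} (hr : 1 ≤ r) {s t m : ℝ} (ht : 0 ≤ t) (hts : t ≤ s) (hsm : s ≤ m) :
    s ^ r - t ^ r ≤ r * m ^ (r - 1) * (s - t) := by
  rcases hr.eq_or_lt with h1 | h1
  · rw [← h1]
    simp
  · have h2 := tangent_le h1 (s := t) (t := s) ht (ht.trans hts)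
    have h3 : s ^ (r - 1) ≤ m ^ (r - 1) :=
      Real.rpow_le_rpow (ht.trans hts) hsm (by linarith)
    have h4 : r * s ^ (r - 1) * (s - t) ≤ r * m ^ (r - 1) * (s - t) :=
      mul_le_mul_of_nonneg_right (mul_le_mul_of_nonneg_left h3 (by linarith)) (by linarith)
    nlinarith

/-- Taylor -/
theorem taylor_le {q : ℝ} (hq : 2 ≤ q) {s t m : ℝ} (hs : 0 ≤ s) (ht : 0 ≤ t) (hsm : s ≤ m)
    (htm : t ≤ m) :
    s ^ q - t ^ q - q * t ^ (q - 1) * (s - t) ≤ 1 / 2 * q * (q - 1) * m ^ (q - 2) * (s - t) ^ 2 := by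
  set g : ℝ → ℝ := fun x => 1 / 2 * q * (q - 1) * m ^ (q - 2) * (x - t) ^ 2 -
    (x ^ q - t ^ q - q * t ^ (q - 1) * (x - t)) with hg
  have hd : ∀ x, HasDerivAt g (q * (q - 1) * m ^ (q - 2) * (x - t) -
      (q * x ^ (q - 1) - q * t ^ (q - 1))) x := by
    intro x
    have h1 : HasDerivAt (fun x : ℝ => x ^ q) (q * x ^ (q - 1)) x :=
      Real.hasDerivAt_rpow_const (Or.inr (by linarith))
    have h2 : HasDerivAt (fun x : ℝ => x - t) 1 x := (hasDerivAt_id x).sub_const t
    have h3 := (h2.pow 2).const_mul (1 / 2 * q * (q - 1) * m ^ (q - 2))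
    have h4 := ((h1.sub_const (t ^ q)).sub (h2.const_mul (q * t ^ (q - 1))))
    have h5 := h3.sub h4
    refine h5.congr_deriv ?_
    push_cast
    ring
  have hcont : Continuous g := continuous_iff_continuousAt.2 fun x => (hd x).continuousAt
  have hgt : g t = 0 := by
    rw [hg]
    simp
  have hrr : q - 2 = (q - 1) - 1 := by ring
  suffices h : 0 ≤ g s by
    rw [hg] at h
    simp only at h
    linarith
  rcases le_total t s with hts | hst
  · have hmono : MonotoneOn g (Set.Icc t s) := by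
      refine monotoneOn_of_deriv_nonneg (convex_Icc _ _) hcont.continuousOn
        (fun x _ => (hd x).differentiableAt.differentiableWithinAt) fun x hx => ?_
      rw [interior_Icc] at hx
      rw [(hd x).deriv]
      have h1 := diff_rpow (r := q - 1) (by linarith) ht hx.1.le (hx.2.le.trans hsm)
      rw [← hrr] at h1
      have h2 := mul_le_mul_of_nonneg_left h1 (by linarith : (0 : ℝ) ≤ q)
      nlinarith
    have := hmono (Set.left_mem_Icc.2 hts) (Set.right_mem_Icc.2 hts) hts
    rw [hgt] at this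
    exact this
  · have hanti : AntitoneOn g (Set.Icc s t) := by
      refine antitoneOn_of_deriv_nonpos (convex_Icc _ _) hcont.continuousOn
        (fun x _ => (hd x).differentiableAt.differentiableWithinAt) fun x hx => ?_
      rw [interior_Icc] at hx
      rw [(hd x).deriv]
      have h1 := diff_rpow (r := q - 1) (by linarith) (hs.trans hx.1.le) hx.2.le htm
      rw [← hrr] at h1
      have h2 := mul_le_mul_of_nonneg_left h1 (by linarith : (0 : ℝ) ≤ q)
      nlinarith
    have := hanti (Set.left_mem_Icc.2 hst) (Set.right_mem_Icc.2 hst) hst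
    rw [hgt] at this
    exact this

theorem re_identity (a b : ℂ) :
    ((starRingEnd ℂ) b * (a - b)).re = (‖a‖ ^ 2 - ‖b‖ ^ 2 - ‖a - b‖ ^ 2) / 2 := by
  rw [Complex.sq_norm, Complex.sq_norm, Complex.sq_norm, Complex.normSq_apply,
    Complex.normSq_apply, Complex.normSq_apply, Complex.mul_re, Complex.conj_re, Complex.conj_im,
    Complex.sub_re, Complex.sub_im]
  ring

theorem rpow_half (x : ℝ) (hx : 0 ≤ x) (p : ℝ) : x ^ p = (x ^ 2) ^ (p / 2) := by
  rw [← Real.rpow_natCast x 2, ← Real.rpow_mul hx]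
  congr 1
  push_cast
  ring

theorem t_BR : P_BR := by
  intro p hp a b
  set A := ‖a‖ with hA
  set B := ‖b‖ with hB
  set D := ‖a - b‖ with hD
  have hA0 : 0 ≤ A := norm_nonneg _
  have hB0 : 0 ≤ B := norm_nonneg _
  have hD0 : 0 ≤ D := norm_nonneg _
  have hABD : A ≤ B + D := by
    have h := norm_add_le b (a - b)
    rw [add_sub_cancel] at h
    exact h
  have hBAD : D ≤ A + B := norm_sub_le a b
  have hABD2 : |A - B| ≤ D := abs_norm_sub_norm_le a b
  have hbr : br p a b = (A ^ 2) ^ (p / 2) - (B ^ 2) ^ (p / 2) -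
      p / 2 * (B ^ 2) ^ (p / 2 - 1) * (A ^ 2 - B ^ 2) + p / 2 * B ^ (p - 2) * D ^ 2 := by
    unfold br
    rw [re_identity, ← rpow_half A hA0 p, ← rpow_half B hB0 p]
    have h1 : (B ^ 2) ^ (p / 2 - 1) = B ^ (p - 2) := by
      rw [rpow_half B hB0 (p - 2)]
      congr 1
      ring
    rw [h1]
    ring
  refine ⟨?_, ?_, ?_⟩
  · have h1 := tangent_le (q := p / 2) (by linarith) (s := A ^ 2) (t := B ^ 2) (by positivity)
      (by positivity)
    rw [hbr]
    linarith
  · set M := B + D with hM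
    have hM0 : 0 ≤ M := by positivity
    have hBM : B ≤ M := by linarith
    have h1 := taylor_le (q := p / 2) (by linarith) (s := A ^ 2) (t := B ^ 2) (m := M ^ 2)
      (by positivity) (by positivity) (by gcongr) (by gcongr)
    have h2 : (M ^ 2) ^ (p / 2 - 2) * (A ^ 2 - B ^ 2) ^ 2 ≤ 4 * D ^ 2 * M ^ (p - 2) := by
      have h3 : (A ^ 2 - B ^ 2) ^ 2 ≤ D ^ 2 * (4 * M ^ 2) := by
        have h4 : (A ^ 2 - B ^ 2) ^ 2 = |A - B| ^ 2 * (A + B) ^ 2 := by
          rw [sq_abs]
          ring
        rw [h4]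
        have h5 : (A + B) ^ 2 ≤ 4 * M ^ 2 := by nlinarith
        exact mul_le_mul (pow_le_pow_left₀ (abs_nonneg _) hABD2 2) h5 (by positivity)
          (by positivity)
      rcases hM0.eq_or_lt with h0 | h0
      · have hD' : D = 0 := by linarith
        have hB' : B = 0 := by linarith
        have hA' : A = 0 := by linarith
        rw [hD', hB', hA']
        simp
      · have h6 : M ^ (p - 2) = (M ^ 2) ^ (p / 2 - 2) * M ^ 2 := by
          rw [← Real.rpow_natCast M 2, ← Real.rpow_mul hM0, ← Real.rpow_add h0]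
          congr 1
          push_cast
          ring
        rw [h6]
        have h7 : 0 ≤ (M ^ 2) ^ (p / 2 - 2) := by positivity
        nlinarith [mul_le_mul_of_nonneg_left h3 h7]
    have h3 : B ^ (p - 2) ≤ M ^ (p - 2) := Real.rpow_le_rpow hB0 hBM (by linarith)
    rw [hbr]
    have h4 : p / 2 * B ^ (p - 2) * D ^ 2 ≤ p / 2 * M ^ (p - 2) * D ^ 2 := by gcongr
    have h5 : 1 / 2 * (p / 2) * (p / 2 - 1) * ((M ^ 2) ^ (p / 2 - 2) * (A ^ 2 - B ^ 2) ^ 2) ≤
        1 / 2 * (p / 2) * (p / 2 - 1) * (4 * D ^ 2 * M ^ (p - 2)) := by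
      refine mul_le_mul_of_nonneg_left h2 ?_
      have : 0 ≤ p / 2 - 1 := by linarith
      positivity
    have h6 : 0 ≤ D ^ 2 * M ^ (p - 2) := by positivity
    have h7 : 0 ≤ p * (D ^ 2 * M ^ (p - 2)) := by positivity
    nlinarith
  · intro h4B
    have h1 : ((starRingEnd ℂ) b * (a - b)).re ≤ B * D := by
      refine (Complex.re_le_norm _).trans (le_of_eq ?_)
      rw [norm_mul, RCLike.norm_conj]
    have hbr' : A ^ p - B ^ p - p * B ^ (p - 2) * (B * D) ≤ br p a b := by
      unfold br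
      have h2 : p * B ^ (p - 2) * ((starRingEnd ℂ) b * (a - b)).re ≤ p * B ^ (p - 2) * (B * D) :=
        mul_le_mul_of_nonneg_left h1 (by positivity)
      linarith
    refine le_trans ?_ hbr'
    have hA34 : 3 / 4 * D ≤ A := by linarith
    have hB14 : B ≤ 1 / 4 * D := by linarith
    have h2 : (3 / 4 * D) ^ p ≤ A ^ p := Real.rpow_le_rpow (by positivity) hA34 (by linarith)
    have h3 : B ^ p ≤ (1 / 4 * D) ^ p := Real.rpow_le_rpow hB0 hB14 (by linarith)
    have h4 : B ^ (p - 2) * (B * D) ≤ (1 / 4 * D) ^ (p - 2) * ((1 / 4 * D) * D) := by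
      gcongr
      linarith
    have h5 : p * B ^ (p - 2) * (B * D) ≤ p * ((1 / 4 * D) ^ (p - 2) * ((1 / 4 * D) * D)) := by
      rw [mul_assoc]
      exact mul_le_mul_of_nonneg_left h4 (by linarith)
    rcases hD0.eq_or_lt with h0 | h0
    · have hB' : B = 0 := by linarith
      rw [← h0] at h2 h5 ⊢
      rw [hB']
      simp only [mul_zero, sub_zero]
      rw [Real.zero_rpow (by linarith)]
      have := Real.rpow_nonneg hA0 p
      linarith
    · have h6 : (1 / 4 * D) ^ (p - 2) * ((1 / 4 * D) * D) = 4 * (1 / 4) ^ p * D ^ p := by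
        rw [Real.mul_rpow (by norm_num) hD0]
        have h7 : D ^ p = D ^ (p - 2) * D ^ 2 := by
          rw [← Real.rpow_natCast D 2, ← Real.rpow_add h0]
          congr 1
          push_cast
          ring
        have h8 : ((1 : ℝ) / 4) ^ p = (1 / 4) ^ (p - 2) * (1 / 4) ^ 2 := by
          rw [← Real.rpow_natCast (1 / 4 : ℝ) 2, ← Real.rpow_add (by norm_num)]
          congr 1
          push_cast
          ring
        rw [h7, h8]
        ring
      rw [h6] at h5
      rw [Real.mul_rpow (by norm_num) hD0] at h2 h3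
      -- the numerical inequality
      have hnum : ((1 : ℝ) / 2) ^ p + (1 / 4) ^ p + p * (4 * (1 / 4) ^ p) ≤ (3 / 4) ^ p := by
        have e1 : ((1 : ℝ) / 2) ^ p = 2 ^ p * (1 / 4) ^ p := by
          rw [← Real.mul_rpow (by norm_num) (by norm_num)]
          norm_num
        have e2 : ((3 : ℝ) / 4) ^ p = (3 / 2) ^ p * 2 ^ p * (1 / 4) ^ p := by
          rw [← Real.mul_rpow (by norm_num) (by norm_num),
            ← Real.mul_rpow (by norm_num) (by norm_num)]
          norm_num
        rw [e1, e2]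
        have e3 : (0 : ℝ) < (1 / 4) ^ p := by positivity
        have e4 := one_add_mul_self_le_rpow_one_add (s := (1 / 2 : ℝ)) (by norm_num)
          (by linarith : (1 : ℝ) ≤ p)
        have e5 : (1 : ℝ) + 1 / 2 = 3 / 2 := by norm_num
        rw [e5] at e4
        have e6 : (16 : ℝ) ≤ 2 ^ p := by
          have : (2 : ℝ) ^ (4 : ℝ) ≤ 2 ^ p := Real.rpow_le_rpow_of_exponent_le (by norm_num) hp
          have h16 : (2 : ℝ) ^ (4 : ℝ) = 16 := by
            have : (4 : ℝ) = ((4 : ℕ) : ℝ) := by norm_num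
            rw [this, Real.rpow_natCast]
            norm_num
          linarith
        have e7 : 2 ^ p + 1 + 4 * p ≤ (3 / 2 : ℝ) ^ p * 2 ^ p := by
          have e8 : (1 + p * (1 / 2)) * 2 ^ p ≤ (3 / 2 : ℝ) ^ p * 2 ^ p :=
            mul_le_mul_of_nonneg_right e4 (by positivity)
          nlinarith
        nlinarith [mul_le_mul_of_nonneg_right e7 e3.le]
      have hDp : 0 ≤ D ^ p := by positivity
      have := mul_le_mul_of_nonneg_right hnum hDp
      nlinarith

end Pool.Agent.W2helper93.BQ
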